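import Pool.Agent.H2.GA.Prm

/-!
# [H2 GB NEAR] A prime `q ≤ (√d - 1)^2` with `√q ≥ √d (1 - (log d)^(-A))`
-/

namespace Pool.Agent.H2.GB

open Filter Topology

private theorem ev2 (A : ℝ) (hA : 0 < A) : ∃ L0 : ℝ, 4 ≤ L0 ∧ ∀ L : ℝ, L0 ≤ L →
    2 * (L ^ A * Real.exp (-(L / 2))) + 2 ^ (A + 1) * L⁻¹ ≤ 1 ∧ L ^ (-A) ≤ 1 / 2 := by
  have h1 : Tendsto (fun L : ℝ => L ^ A * Real.exp (-(L / 2))) atTop (𝓝 0) := by
    have := tendsto_rpow_mul_exp_neg_mul_atTop_nhds_zero A (1 / 2) (by norm_num)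
    refine this.congr fun L => ?_
    congr 2
    ring
  have h2 : Tendsto (fun L : ℝ => L⁻¹) atTop (𝓝 0) := tendsto_inv_atTop_zero
  have h3 : Tendsto (fun L : ℝ => L ^ (-A)) atTop (𝓝 0) := tendsto_rpow_neg_atTop hA
  have h4 : Tendsto (fun L : ℝ => 2 * (L ^ A * Real.exp (-(L / 2))) + 2 ^ (A + 1) * L⁻¹) atTop
      (𝓝 (2 * 0 + 2 ^ (A + 1) * 0)) := (h1.const_mul 2).add (h2.const_mul _)
  have h5 := (tendsto_order.1 h4).2 1 (by norm_num)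
  have h6 := (tendsto_order.1 h3).2 (1 / 2) (by norm_num)
  obtain ⟨L1, hL1⟩ := eventually_atTop.1 (h5.and h6)
  exact ⟨max 4 L1, le_max_left _ _, fun L hL =>
    ⟨(hL1 L ((le_max_right 4 L1).trans hL)).1.le, (hL1 L ((le_max_right 4 L1).trans hL)).2.le⟩⟩

theorem near (A : ℝ) (hA : 0 < A) : ∃ N : ℕ, 11 ≤ N ∧ ∀ d : ℕ, N ≤ d →
    ∃ q : ℕ, q.Prime ∧ (√(q : ℝ) + 1) ^ 2 ≤ d ∧
      √(d : ℝ) * (1 - (Real.log d) ^ (-A)) ≤ √(q : ℝ) := by
  obtain ⟨L0, hL0, hE⟩ := ev2 A hA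
  obtain ⟨N1, _, hN1⟩ := Pool.Agent.H2.GA.primes (A + 1) (by linarith)
  refine ⟨4 * N1 + ⌈Real.exp L0⌉₊ + 16, by omega, fun d hd => ?_⟩
  have hd16 : (16 : ℝ) ≤ d := by
    have : 16 ≤ d := by omega
    exact_mod_cast this
  have hdp : (0 : ℝ) < d := by linarith
  have hne : Real.exp L0 ≤ d := by
    have : ⌈Real.exp L0⌉₊ ≤ d := by omega
    exact (Nat.le_ceil _).trans (by exact_mod_cast this)
  obtain ⟨L, hL⟩ : ∃ L, L = Real.log d := ⟨_, rfl⟩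
  have hL0L : L0 ≤ L := by
    rw [hL, Real.le_log_iff_exp_le hdp]
    exact hne
  obtain ⟨hE1, hE2⟩ := hE L hL0L
  have hLp : 0 < L := by linarith
  have hexp : Real.exp L = d := by rw [hL, Real.exp_log hdp]
  rw [← hL]
  obtain ⟨x, hx⟩ : ∃ x, x = L ^ (-A) := ⟨_, rfl⟩
  rw [← hx] at hE2 ⊢
  have hx0 : 0 < x := by rw [hx]; exact Real.rpow_pos_of_pos hLp _
  have hsd4 : (4 : ℝ) ≤ √(d : ℝ) := by
    rw [Real.le_sqrt (by norm_num) hdp.le]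
    linarith
  have hsq : √(d : ℝ) * √(d : ℝ) = d := Real.mul_self_sqrt hdp.le
  -- the integer n
  obtain ⟨n, hn⟩ : ∃ n, n = ⌈(d : ℝ) * (1 - x) ^ 2⌉₊ := ⟨_, rfl⟩
  have hy0 : 0 ≤ (d : ℝ) * (1 - x) ^ 2 := by positivity
  have hn1 : (d : ℝ) * (1 - x) ^ 2 ≤ n := by rw [hn]; exact Nat.le_ceil _
  have hn2 : (n : ℝ) < (d : ℝ) * (1 - x) ^ 2 + 1 := by rw [hn]; exact Nat.ceil_lt_add_one hy0
  have hn3 : n ≤ d := by
    rw [hn, Nat.ceil_le]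
    have : (1 - x) ^ 2 ≤ 1 := by nlinarith
    nlinarith
  have hn3' : (n : ℝ) ≤ d := by exact_mod_cast hn3
  have hn4 : (d : ℝ) / 4 ≤ n := by
    have : 1 / 4 ≤ (1 - x) ^ 2 := by nlinarith
    nlinarith
  have hnN : N1 ≤ n := by
    have h1 : (4 * N1 : ℕ) ≤ d := by omega
    have h2 : ((4 * N1 : ℕ) : ℝ) ≤ d := by exact_mod_cast h1
    push_cast at h2
    have : (N1 : ℝ) ≤ n := by linarith
    exact_mod_cast this
  have hnp : (0 : ℝ) < n := by linarith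
  have hlogn : L / 2 ≤ Real.log n := by
    have h1 : √(d : ℝ) ≤ n := by nlinarith
    have h2 : Real.log (√(d : ℝ)) ≤ Real.log n := Real.log_le_log (by linarith) h1
    rw [Real.log_sqrt hdp.le, ← hL] at h2
    exact h2
  obtain ⟨q, hq, hnq, hqn⟩ := hN1 n hnN
  have hgap : (n : ℝ) / (Real.log n) ^ (A + 1) ≤ d * (x * (2 ^ (A + 1) * L⁻¹)) := by
    have h1 : (L / 2) ^ (A + 1) ≤ (Real.log n) ^ (A + 1) :=
      Real.rpow_le_rpow (by linarith) hlogn (by linarith)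
    have h2 : 0 < (L / 2) ^ (A + 1) := Real.rpow_pos_of_pos (by linarith) _
    have h3 : (n : ℝ) / (Real.log n) ^ (A + 1) ≤ d / (L / 2) ^ (A + 1) :=
      div_le_div₀ hdp.le hn3' h2 h1
    refine h3.trans (le_of_eq ?_)
    have h4 : (L / 2) ^ (A + 1) = L ^ A * L / 2 ^ (A + 1) := by
      rw [Real.div_rpow hLp.le (by norm_num), Real.rpow_add_one hLp.ne' A]
    have h5 : 0 < L ^ A := Real.rpow_pos_of_pos hLp _
    have h6 : (0 : ℝ) < 2 ^ (A + 1) := Real.rpow_pos_of_pos (by norm_num) _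
    rw [h4, hx, Real.rpow_neg hLp.le]
    field_simp
  have hsqx : 2 * √(d : ℝ) = d * (x * (2 * (L ^ A * Real.exp (-(L / 2))))) := by
    have h1 : √(d : ℝ) = Real.exp (L / 2) := by
      rw [← hexp, Real.sqrt_eq_iff_mul_self_eq (Real.exp_pos _).le (Real.exp_pos _).le,
        ← Real.exp_add]
      congr 1
      ring
    have h2 : x * L ^ A = 1 := by
      rw [hx, ← Real.rpow_add hLp]
      simp
    have h3 : (d : ℝ) * Real.exp (-(L / 2)) = Real.exp (L / 2) := by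
      rw [← hexp, ← Real.exp_add]
      congr 1
      ring
    calc 2 * √(d : ℝ) = 2 * (d * Real.exp (-(L / 2))) * (x * L ^ A) := by rw [h1, h2, h3, mul_one]
      _ = _ := by ring
  have hkey : (q : ℝ) ≤ (√(d : ℝ) - 1) ^ 2 := by
    have h1 : (1 - x) ^ 2 ≤ 1 - x := by nlinarith
    have h2 : (d : ℝ) * (1 - x) ^ 2 ≤ d * (1 - x) := mul_le_mul_of_nonneg_left h1 hdp.le
    have h3 : (d : ℝ) * (x * (2 * (L ^ A * Real.exp (-(L / 2))) + 2 ^ (A + 1) * L⁻¹)) ≤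
        d * (x * 1) :=
      mul_le_mul_of_nonneg_left (mul_le_mul_of_nonneg_left hE1 hx0.le) hdp.le
    nlinarith
  refine ⟨q, hq, ?_, ?_⟩
  · have h1 : √(q : ℝ) ≤ √(d : ℝ) - 1 := by
      rw [Real.sqrt_le_left (by linarith)]
      exact hkey
    have h2 : 0 ≤ √(q : ℝ) := Real.sqrt_nonneg _
    nlinarith
  · apply Real.le_sqrt_of_sq_le
    rw [mul_pow, Real.sq_sqrt hdp.le]
    exact hn1.trans (by exact_mod_cast hnq)

end Pool.Agent.H2.GB
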