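import Pool.Agent.H2.GA.Upp
import Pool.Agent.H2.GB.Near
import Pool.Agent.H64.EQ.Exp

/-!
# [H2 GB FIN] `gap(G_{=d})` and `gap(G_{≥d})` are asymptotically `1/√d` for all `d`

From the explicit inequality of H64/EQ and a prime just below `(√d - 1)^2`.
-/

namespace Pool.Agent.H2.GB

open Pool.Agent.H17 Pool.Agent.H2.GA

theorem compl_reg (d : ℕ) (hd : 2 ≤ d) : InRegular d (⊤ : SimpleGraph (Fin (d + 1))) := by
  classical
  refine ⟨by simp; omega, SimpleGraph.connected_top, fun v => ?_⟩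
  have h := SimpleGraph.complete_graph_degree v
  rw [Fintype.card_fin, Nat.add_sub_cancel] at h
  have e : ∀ i1 i2 : Fintype ((⊤ : SimpleGraph (Fin (d + 1))).neighborSet v),
      @SimpleGraph.degree _ (⊤ : SimpleGraph (Fin (d + 1))) v i1 =
        @SimpleGraph.degree _ (⊤ : SimpleGraph (Fin (d + 1))) v i2 := fun i1 i2 => by
    rw [Subsingleton.elim i1 i2]
  exact (e _ _).trans h

theorem reg_le' (d : ℕ) (hd : 2 ≤ d) : gapRegular d ≤ gapMinDegree d :=
  reg_le _ d (by omega) (compl_reg d hd)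

theorem final (A : ℝ) (hA : 0 < A) : ∃ N : ℕ, ∀ d : ℕ, N ≤ d →
    (1 - (Real.log d) ^ (-A)) / √(d : ℝ) ≤ gapRegular d ∧ gapRegular d ≤ gapMinDegree d ∧
      gapMinDegree d ≤ √((d : ℝ) - 1) / d := by
  obtain ⟨N, hN11, hN⟩ := near A hA
  refine ⟨N, fun d hd => ?_⟩
  obtain ⟨q, hq, hqd, h⟩ := hN d hd
  have hd11 : 11 ≤ d := hN11.trans hd
  have hdp : (0 : ℝ) < d := by
    have : 0 < d := by omega
    exact_mod_cast this
  refine ⟨le_trans ?_ (Pool.Agent.H64.EQ.explicit q d hq.isPrimePow hqd), reg_le' d (by omega),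
    upper d hd11⟩
  have hsd : 0 < √(d : ℝ) := Real.sqrt_pos.2 hdp
  rw [div_le_div_iff₀ hsd hdp]
  have h6 := mul_le_mul_of_nonneg_right h hsd.le
  have h7 : √(d : ℝ) * √(d : ℝ) = d := Real.mul_self_sqrt hdp.le
  have h8 : √(d : ℝ) * (1 - (Real.log d) ^ (-A)) * √(d : ℝ) =
      (1 - (Real.log d) ^ (-A)) * (√(d : ℝ) * √(d : ℝ)) := by ring
  rw [h8, h7] at h6
  exact h6

end Pool.Agent.H2.GB
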